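import Pool.Agent.Lib_MP_752436_mv.Main

/-!
Births of slice discs can be traded for Reidemeister III moves of the movie which come after the
first birth, and ribbon knots are characterised by this.
-/

namespace Pool.Agent.Lib_MP_752436_old.MovieBirths

open Pool.Agent.Lib_MP_752436_gt Pool.Agent.Lib_MP_752436_rb Pool.Agent.Lib_MP_752436_mv

/-- The movie of a slice disc `F = (x, y, z, t)` in the half space `R^4_{t >= 0}` is the family of
the diagrams of the horizontal slices `t = const`, projected to the `(x, y)`-plane, with the
crossing information given by `z`.
(1) A subset `K` of `R^3` is a ribbon knot (the boundary of an immersed disc in `R^3` whose double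
points form finitely many disjoint ribbon singularities) if and only if it bounds a Morse slice
disc `F` such that for some level `s` every interior local minimum (birth) of the height is at a
height greater than `s`, the movie of `F` is generic at heights at least `s`, and it has no
Reidemeister III move at heights at least `s`.
(2) Let `F` be a Morse slice disc and let `s` be a level such that the movie of `F` is generic at
heights at least `s`. Then there is a Morse slice disc `G` with the same boundary knot whose number
of births is at most the number of births of `F` at heights at most `s` plus the number of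
Reidemeister III moves of the movie of `F` at heights at least `s`.
Reidemeister I and II moves, saddles and deaths are not counted. -/
theorem result :
    (∀ K : Set (EuclideanSpace ℝ (Fin 3)),
      IsRibbonKnot K ↔ ∃ (F : EuclideanSpace ℝ (Fin 2) → EuclideanSpace ℝ (Fin 4)) (s : ℝ),
        MorseDisc F ∧ boundaryKnot F = K ∧ GenericMovie F s ∧
        (∀ x ∈ births F, s < F x 3) ∧ moves F s = ∅) ∧
    ∀ (F : EuclideanSpace ℝ (Fin 2) → EuclideanSpace ℝ (Fin 4)) (s : ℝ),
      MorseDisc F → GenericMovie F s →
      ∃ G, MorseDisc G ∧ boundaryKnot G = boundaryKnot F ∧
        (births G).encard ≤ (births F ∩ {x | F x 3 ≤ s}).encard + (moves F s).encard := by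
  refine ⟨ribbon_iff_movie, fun F s hF hg => ?_⟩
  rcases (moves F s).finite_or_infinite with h | h
  · obtain ⟨G, hG, hGF, hn⟩ := births_of_moves hF hg (n := h.toFinset.card)
      (by rw [h.encard_eq_coe_toFinset_card])
    exact ⟨G, hG, hGF, by rwa [h.encard_eq_coe_toFinset_card]⟩
  · refine ⟨F, hF, rfl, ?_⟩
    rw [h.encard_eq, add_top]
    exact le_top

end Pool.Agent.Lib_MP_752436_old.MovieBirths
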